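import Pool.Agent.W788.NV.Stm

/-! NV-DRF: the weighted number of descendants decays at rate θ. -/

namespace Pool.Agent.W683.NV.Drf

open Finset
open Pool.Agent.W788.NV

theorem chg_noise {V : Type} [Fintype V] [DecidableEq V] (d : V → ℝ) (D : Finset V) (w : V) :
    (∑ x ∈ D.erase w, d x) - ∑ x ∈ D, d x = -(if w ∈ D then d w else 0) := by
  by_cases h : w ∈ D
  · rw [if_pos h, ← Finset.add_sum_erase D d h]
    ring
  · rw [if_neg h, Finset.erase_eq_of_notMem h]
    ring

theorem chg_ins {V : Type} [Fintype V] [DecidableEq V] (d : V → ℝ) (D : Finset V) (w : V) :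
    (∑ x ∈ insert w D, d x) - ∑ x ∈ D, d x = if w ∈ D then 0 else d w := by
  by_cases h : w ∈ D
  · rw [if_pos h, Finset.insert_eq_of_mem h]
    ring
  · rw [if_neg h, Finset.sum_insert h]
    ring

theorem sym_sum {V : Type} [Fintype V] [DecidableEq V] (A : V → V → ℝ)
    (hA : ∀ w u, A w u = A u w) (χ : V → ℝ) :
    ∑ p : V × V, A p.1 p.2 * (χ p.2 - χ p.1) = 0 := by
  have h : ∑ p : V × V, A p.1 p.2 * (χ p.2 - χ p.1) =
      ∑ p : V × V, A p.2 p.1 * (χ p.1 - χ p.2) :=
    Fintype.sum_equiv (Equiv.prodComm V V) _ _ fun p => rfl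
  have h2 : ∑ p : V × V, A p.2 p.1 * (χ p.1 - χ p.2) =
      -∑ p : V × V, A p.1 p.2 * (χ p.2 - χ p.1) := by
    rw [← Finset.sum_neg_distrib]
    refine Finset.sum_congr rfl fun p _ => ?_
    rw [hA p.2 p.1]
    ring
  linarith

theorem drf_ (h1 : S_DL) (h2 : S_TOT) : S_DRF := by
  intro V _ _ G q θ hq h0 hθ hd Φ v
  obtain ⟨n1, n2, n3, -⟩ := h1 V q Φ v
  classical
  unfold gf
  rw [Fintype.sum_sum_type]
  have hq0 : (q : ℝ) ≠ 0 := by
    have : q ≠ 0 := by omega
    exact_mod_cast this
  have e1 : ∑ p : V × Fin q, mrate G q θ (Sum.inl p) *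
      (wdep G (mL (Sum.inl p) Φ) v - wdep G Φ v) = -θ * wdep G Φ v := by
    have : ∀ p : V × Fin q, mrate G q θ (Sum.inl p) *
        (wdep G (mL (Sum.inl p) Φ) v - wdep G Φ v) =
        θ / q * -(if p.1 ∈ dep Φ v then (dg G p.1 : ℝ) else 0) := by
      rintro ⟨w, a⟩
      unfold wdep
      rw [n1 w a, chg_noise]
      rfl
    rw [Finset.sum_congr rfl fun p _ => this p, Fintype.sum_prod_type]
    simp only [Finset.sum_const, Finset.card_univ, Fintype.card_fin, nsmul_eq_mul]
    have e : ∀ w : V, (q : ℝ) * (θ / q * -(if w ∈ dep Φ v then (dg G w : ℝ) else 0)) =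
        -θ * (if w ∈ dep Φ v then (dg G w : ℝ) else 0) := by
      intro w
      field_simp
    rw [Finset.sum_congr rfl fun w _ => e w, ← Finset.mul_sum, Finset.sum_ite_mem,
      Finset.univ_inter]
    rfl
  have e2 : ∑ p : V × V, mrate G q θ (Sum.inr p) *
      (wdep G (mL (Sum.inr p) Φ) v - wdep G Φ v) = 0 := by
    have : ∀ p : V × V, mrate G q θ (Sum.inr p) *
        (wdep G (mL (Sum.inr p) Φ) v - wdep G Φ v) =
        (if G.Adj p.1 p.2 then (1 - θ) else 0) *
          ((if p.2 ∈ dep Φ v then (1 : ℝ) else 0) - (if p.1 ∈ dep Φ v then (1 : ℝ) else 0)) := by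
      rintro ⟨w, u⟩
      have hdw : (dg G w : ℝ) ≠ 0 := by
        have : dg G w ≠ 0 := by
          have := hd w
          omega
        exact_mod_cast this
      have hm : mrate G q θ (Sum.inr (w, u)) =
          if G.Adj w u then (1 - θ) / (dg G w : ℝ) else 0 := by
        by_cases ha : G.Adj w u
        · simp [mrate, ha]
        · simp [mrate, ha]
      rw [hm]
      unfold wdep
      by_cases hu : u ∈ dep Φ v
      · rw [n2 w u hu, chg_ins]
        by_cases hw : w ∈ dep Φ v
        · simp [hu, hw]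
        · by_cases ha : G.Adj w u
          · simp only [ha, hu, hw, if_true, if_false]
            field_simp
            ring
          · simp [ha]
      · rw [n3 w u hu, chg_noise]
        by_cases hw : w ∈ dep Φ v
        · by_cases ha : G.Adj w u
          · simp only [ha, hu, hw, if_true, if_false]
            field_simp
            ring
          · simp [ha]
        · simp [hu, hw]
    rw [Finset.sum_congr rfl fun p _ => this p]
    exact sym_sum (fun w u => if G.Adj w u then (1 - θ) else 0)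
      (fun w u => by simp only [G.adj_comm w u]) (fun w => if w ∈ dep Φ v then (1 : ℝ) else 0)
  rw [e1, e2, add_zero]

end Pool.Agent.W683.NV.Drf
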